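import Pool.Agent.RCM.Chud
import Pool.Agent.RCM.Top

/-!
Rohrlich's question for all tuples of non-integral rationals, and for all tuples of level not
divisible by one exceptional number `f`; all exceptions have integral entries and lie on one line.
-/

open Pool.Agent.RHK hiding ClassLevel Ind
open Pool.Agent.RCM

namespace Pool.Agent.Results.MP_c2409d_nt.AllLevels

/-- the gamma product is an algebraic multiple of `π ^ (r / 2)` -/
def GammaMult {r : ℕ} (a : Fin r → ℚ) : Prop :=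
  ∃ α : ℝ, IsAlgebraic ℚ α ∧ ∏ i, Real.Gamma ((a i : ℚ) : ℝ) = α * Real.pi ^ ((r : ℝ) / 2)

/-- the fractional part identity for the common denominator `M` -/
def FracId (M : ℕ) {r : ℕ} (a : Fin r → ℚ) : Prop :=
  ∀ m : ℕ, 1 ≤ m → m ≤ M → Nat.Coprime m M → ∑ i, Int.fract ((m : ℚ) * a i) = (r : ℚ) / 2

/-- `M` is a common denominator of the `a i` -/
def ComDen (M : ℕ) {r : ℕ} (a : Fin r → ℚ) : Prop := 0 < M ∧ ∀ i, ∃ z : ℤ, (M : ℚ) * a i = z

/-- the number of integers among the `a i` -/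
def numInt {r : ℕ} (a : Fin r → ℚ) : ℕ :=
  (Finset.univ.filter fun i => Int.fract (a i) = 0).card

theorem result :
    (∀ (r : ℕ) (a : Fin r → ℚ) (M : ℕ), ComDen M a → (∀ (i : Fin r) (z : ℤ), a i ≠ z) →
      (GammaMult a ↔ FracId M a)) ∧
    ∃ (f : ℕ) (U : ℕ → ℚ), 5 ≤ f ∧ f % 4 ≠ 2 ∧ (∀ m m' : ℕ, m ≡ m' [MOD f] → U m = U m') ∧
      (∃ m : ℕ, m.Coprime f ∧ U m ≠ 0) ∧
      ∀ (r : ℕ) (a : Fin r → ℚ) (M : ℕ), ComDen M a → (∀ (i : Fin r) (n : ℕ), a i ≠ -(n : ℚ)) →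
        ¬ (GammaMult a ↔ FracId M a) → f ∣ M ∧ 0 < numInt a ∧ ∀ m : ℕ, m.Coprime M →
          ∑ i, Int.fract ((m : ℚ) * a i) = ((r : ℚ) - numInt a) / 2 + numInt a * U m := by
  refine ⟨fun r a M hM hni => nonintegral_all indAll a M hM.1 hM.2 hni, ?_⟩
  obtain ⟨f, U, hf, hf4, hU1, hU0, hall⟩ := line_fin indAll
  refine ⟨f, U, hf, hf4, hU1, hU0, fun r a M hM hnp hne => ?_⟩
  obtain ⟨h1, h2, h3, -⟩ := hall r a M ⟨hM.1, hM.2, hnp, hne⟩
  exact ⟨h1, h2, h3⟩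

end Pool.Agent.Results.MP_c2409d_nt.AllLevels
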