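import Pool.Agent.GP.Sym
import Pool.Agent.RCM.BetaT
import Pool.Agent.RCM.Top

/-!
Beta values at rational arguments which are algebraic over `ℚ(θ)`, for an arbitrary complex number
`θ`: at most two CM types occur, and only complementary ones if `θ = π`; at most half of the
conjugates of a Beta value are algebraic over `ℚ(θ)`.
-/

namespace Pool.Agent.Results.MP_c2409d_nt.BetaAndPi

open IntermediateField

/-- `a`, `b` are rational numbers with denominators dividing `M`; `a`, `b`, `a + b` are not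
integers -/
def Pair (M : ℕ) (a b : ℚ) : Prop :=
  (∃ z : ℤ, (M : ℚ) * a = z) ∧ (∃ z : ℤ, (M : ℚ) * b = z) ∧ ∀ z : ℤ, a ≠ z ∧ b ≠ z ∧ a + b ≠ z

/-- the value `B(a, b)` of Euler's beta function -/
noncomputable def beta (a b : ℚ) : ℝ := Real.Gamma a * Real.Gamma b / Real.Gamma (a + b)

/-- the CM type of `(a, b)`: the `m` prime to `M` with `{m a} + {m b} > 1` -/
def cmType (M : ℕ) (a b : ℚ) : Set ℕ :=
  {m | m.Coprime M ∧ 1 < Int.fract ((m : ℚ) * a) + Int.fract ((m : ℚ) * b)}

theorem type_eq {M : ℕ} {a b a' b' : ℚ}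
    (h : ∀ m : ℕ, m.Coprime M → (RCM.cmt a b m ↔ RCM.cmt a' b' m)) :
    cmType M a b = cmType M a' b' := by
  ext m
  constructor
  · rintro ⟨h1, h2⟩
    exact ⟨h1, (h m h1).1 h2⟩
  · rintro ⟨h1, h2⟩
    exact ⟨h1, (h m h1).2 h2⟩

theorem type_compl {M : ℕ} {a b a' b' : ℚ}
    (h : ∀ m : ℕ, m.Coprime M → (RCM.cmt a b m ↔ ¬ RCM.cmt a' b' m)) :
    cmType M a b = {m | m.Coprime M} \ cmType M a' b' := by
  ext m
  constructor
  · rintro ⟨h1, h2⟩
    exact ⟨h1, fun h3 => (h m h1).1 h2 h3.2⟩
  · rintro ⟨h1, h2⟩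
    exact ⟨h1, (h m h1).2 fun h3 => h2 ⟨h1, h3⟩⟩

theorem result :
    (∀ M : ℕ, 0 < M → ∀ θ : ℂ, ∃ Φ Ψ : Set ℕ,
      (∀ a b : ℚ, Pair M a b → IsAlgebraic ℚ⟮θ⟯ ((beta a b : ℝ) : ℂ) →
        cmType M a b = Φ ∨ cmType M a b = Ψ) ∧
      (θ = Real.pi → Ψ = {m : ℕ | m.Coprime M} \ Φ)) ∧
    ∀ D j k : ℕ, 3 ≤ D → ¬ D ∣ j → ¬ D ∣ k → ¬ D ∣ j + k →
      (j.Coprime D ∨ k.Coprime D ∨ (j + k).Coprime D) → ∀ θ : ℂ,
      2 * {t : ℕ | t < D ∧ t.Coprime D ∧ IsAlgebraic ℚ⟮θ⟯
        ((beta ((t * j % D : ℕ) / D) ((t * k % D : ℕ) / D) : ℝ) : ℂ)}.ncard ≤ D.totient := by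
  constructor
  · intro M hM θ
    by_cases hθ : θ = (Real.pi : ℂ)
    · subst hθ
      by_cases hex : ∃ a b : ℚ, Pair M a b ∧ IsAlgebraic ℚ⟮(Real.pi : ℂ)⟯ ((beta a b : ℝ) : ℂ)
      · obtain ⟨a, b, hp, ha⟩ := hex
        refine ⟨cmType M a b, {m : ℕ | m.Coprime M} \ cmType M a b, fun a' b' hp' ha' => ?_,
          fun _ => rfl⟩
        rcases RCM.pi_types RCM.trAll hM hp' hp ha' ha with h | h
        · exact Or.inl (type_eq h)
        · exact Or.inr (type_compl h)
      · push Not at hex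
        exact ⟨∅, {m : ℕ | m.Coprime M} \ ∅, fun a b hp ha => absurd ha (hex a b hp), fun _ => rfl⟩
    · by_cases hex : ∃ a b : ℚ, Pair M a b ∧ IsAlgebraic ℚ⟮θ⟯ ((beta a b : ℝ) : ℂ)
      · obtain ⟨a, b, hp, ha⟩ := hex
        by_cases hex' : ∃ a' b' : ℚ, Pair M a' b' ∧ IsAlgebraic ℚ⟮θ⟯ ((beta a' b' : ℝ) : ℂ) ∧
            cmType M a' b' ≠ cmType M a b
        · obtain ⟨a', b', hp', ha', hne⟩ := hex'
          refine ⟨cmType M a b, cmType M a' b', fun x y hxy hx => ?_, fun h => absurd h hθ⟩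
          by_contra hcon
          push Not at hcon
          obtain ⟨i, j, hij, h⟩ := RCM.three_types RCM.trAll θ hM (a := ![a, a', x])
            (b := ![b, b', y])
            (by
              intro i
              fin_cases i
              · exact hp
              · exact hp'
              · exact hxy)
            (by
              intro i
              fin_cases i
              · exact ha
              · exact ha'
              · exact hx)
          have h1 := type_eq h
          fin_cases i <;> fin_cases j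
          · exact hij rfl
          · exact hne h1.symm
          · exact hcon.1 h1.symm
          · exact hne h1
          · exact hij rfl
          · exact hcon.2 h1.symm
          · exact hcon.1 h1
          · exact hcon.2 h1
          · exact hij rfl
        · push Not at hex'
          exact ⟨cmType M a b, cmType M a b, fun x y hxy hx => Or.inl (hex' x y hxy hx),
            fun h => absurd h hθ⟩
      · push Not at hex
        exact ⟨∅, ∅, fun a b hp ha => absurd ha (hex a b hp), fun h => absurd h hθ⟩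
  · intro D j k hD hj hk hjk h θ
    classical
    refine le_trans (le_of_eq ?_) (GP.thmA_sym D j k hD hj hk hjk h θ)
    rw [← Set.ncard_coe_finset]
    congr 2
    ext t
    rw [Finset.mem_coe, Finset.mem_filter, Finset.mem_range]
    unfold beta
    push_cast
    exact Iff.rfl

end Pool.Agent.Results.MP_c2409d_nt.BetaAndPi
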