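import Pool.Agent.RCM.Top

/-!
The gamma values `Γ(x)/√π` at non-integral rationals are algebraically independent if and only if
their class functions are linearly independent; the exact transcendence degree for every
denominator.
-/

open Pool.Agent.RHK hiding ClassLevel Ind
open Pool.Agent.RCM

namespace Pool.Agent.Results.MP_c2409d_nt.LangModuloPi

/-- the class function `m ↦ {m x} - 1 / 2` on the integers `m` prime to `M` -/
def classFn (M : ℕ) (x : ℚ) : {m : ℕ // m.Coprime M} → ℚ :=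
  fun m => Int.fract (((m : ℕ) : ℚ) * x) - 1 / 2

/-- `Γ(x)/√π` -/
noncomputable def G (x : ℚ) : ℝ := Real.Gamma x / Real.sqrt Real.pi

theorem result :
    (∀ (k : ℕ) (x : Fin k → ℚ) (M : ℕ), 0 < M → (∀ i, ∃ z : ℤ, (M : ℚ) * x i = z) →
      (∀ (i : Fin k) (z : ℤ), x i ≠ z) →
      (AlgebraicIndependent ℚ (fun i => G (x i)) ↔
        LinearIndependent ℚ (fun i => classFn M (x i)))) ∧
    ∀ D : ℕ, 3 ≤ D → ∃ J : Finset ℕ, (∀ j ∈ J, 0 < j ∧ j < D) ∧ 2 * J.card = D.totient ∧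
      AlgebraicIndependent ℚ (fun j : J => G ((j : ℕ) / D)) ∧
      ∀ j : ℕ, 0 < j → j < D → IsAlgebraic
        (IntermediateField.adjoin ℚ (Set.range fun i : J => ((G ((i : ℕ) / D) : ℝ) : ℂ)))
        ((G ((j : ℕ) / D) : ℝ) : ℂ) := by
  refine ⟨fun k x M hM hx hni => lang_mod_pi trAll x hM hx hni, fun D hD => ?_⟩
  obtain ⟨J, hJ, hc⟩ := indAll D hD
  have hD0 : 0 < D := by omega
  have hcast : ∀ j : ℕ, G ((j : ℕ) / D) = Real.Gamma ((j : ℕ) / D) / Real.sqrt Real.pi := by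
    intro j
    unfold G
    push_cast
    rfl
  refine ⟨J, hJ.mem, le_antisymm hJ.card_le hc, ?_, ?_⟩
  · have h := hJ.ind
    simp only [← hcast] at h
    exact h
  · intro j h0 h1
    set F := IntermediateField.adjoin ℚ (Set.range fun i : J => ((G ((i : ℕ) / D) : ℝ) : ℂ)) with hF
    have : NeZero D := ⟨hD0.ne'⟩
    have hpt := RHK.pt_div h0 h1
    have hspan : RHK.Sf D ((j : ℚ) / D) ∈ Submodule.span ℚ
        ((fun i : J => RHK.Sf D (((i : ℕ) : ℚ) / D)) '' Set.univ) := by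
      rw [Set.image_univ]
      have h2 := hJ.spJ_eq hc
      unfold RHK.spJ at h2
      rw [h2]
      exact RHK.Sf_odd hpt
    have h3 := lg_of_span hD0 (F := F) (fun i : J => ((i : ℕ) : ℚ) / D)
      (fun i => RHK.pt_div (hJ.mem i i.2).1 (hJ.mem i i.2).2) Set.univ (fun i _ => by
        rw [mem_LogF, exp_lg (RHK.pt_div (hJ.mem i i.2).1 (hJ.mem i i.2).2).1]
        exact isAlgebraic_algebraMap (⟨_, IntermediateField.subset_adjoin ℚ _ ⟨i, rfl⟩⟩ : F)) hpt
      hspan
    rw [mem_LogF, exp_lg hpt.1] at h3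
    exact h3

end Pool.Agent.Results.MP_c2409d_nt.LangModuloPi
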