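import Pool.Agent.LWP.Lng
import Pool.Agent.RCM.Top

/-!
The Lang-Rohrlich conjecture for `π` and the gamma values at rational points: all algebraic
relations are the standard ones, except for those which follow from at most one further relation.
-/

open Pool.Agent.RCM

namespace Pool.Agent.Results.MP_c2409d_nt.LangWithPi

/-- the class function `m ↦ {m x} - 1 / 2` on the integers `m` prime to `M` -/
def classFn (M : ℕ) (x : ℚ) : {m : ℕ // m.Coprime M} → ℚ :=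
  fun m => Int.fract (((m : ℕ) : ℚ) * x) - 1 / 2

/-- non-integral rationals `x 0, .., x (k-1)` with common denominator `M` -/
def Tuple (M : ℕ) {k : ℕ} (x : Fin k → ℚ) : Prop :=
  0 < M ∧ (∀ i, ∃ z : ℤ, (M : ℚ) * x i = z) ∧ ∀ (i : Fin k) (z : ℤ), x i ≠ z

/-- the `k + 1` numbers `π, Γ(x 0), .., Γ(x (k-1))` -/
noncomputable def piGamma {k : ℕ} (x : Fin k → ℚ) : Option (Fin k) → ℝ :=
  fun o => o.elim Real.pi fun i => Real.Gamma (x i)

/-- the functions `U j`, restricted to the integers prime to `M`, are rational linear combinations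
of the class functions of `x` -/
def Spanned {d : ℕ} (U : Fin d → ℕ → ℚ) (M : ℕ) {k : ℕ} (x : Fin k → ℚ) : Prop :=
  ∀ j, (fun m : {m : ℕ // m.Coprime M} => U j m) ∈
    Submodule.span ℚ (Set.range fun i => classFn M (x i))

/-- the field `ℚ(π, Γ(1/D), .., Γ((D-1)/D))` -/
noncomputable def gammaField (D : ℕ) : IntermediateField ℚ ℝ :=
  IntermediateField.adjoin ℚ (insert Real.pi {z | ∃ j : ℕ, 0 < j ∧ j < D ∧
    z = Real.Gamma ((j : ℝ) / D)})

theorem result :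
    (((∀ (k : ℕ) (x : Fin k → ℚ) (M : ℕ), Tuple M x →
        (AlgebraicIndependent ℚ (piGamma x) ↔ LinearIndependent ℚ (fun i => classFn M (x i)))) ∧
      ∀ D : ℕ, 3 ≤ D → Algebra.trdeg ℚ (gammaField D) = (1 + D.totient / 2 : ℕ)) ∨
    ∃ (f d : ℕ) (U : Fin d → ℕ → ℚ), 5 ≤ f ∧ f % 4 ≠ 2 ∧ 0 < d ∧
      (∀ (j : Fin d) (m m' : ℕ), m ≡ m' [MOD f] → U j m = U j m') ∧
      LinearIndependent ℚ (fun (j : Fin d) (m : {m : ℕ // m.Coprime f}) => U j m) ∧
      (∀ (k : ℕ) (x : Fin k → ℚ) (M : ℕ), Tuple M x → (AlgebraicIndependent ℚ (piGamma x) ↔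
        LinearIndependent ℚ (fun i => classFn M (x i)) ∧ ¬ (f ∣ M ∧ Spanned U M x))) ∧
      ∀ D : ℕ, 3 ≤ D → Algebra.trdeg ℚ (gammaField D) =
        (if f ∣ D then D.totient / 2 else 1 + D.totient / 2 : ℕ)) ∧
    ∃ x₀ : ℚ, 5 ≤ x₀.den ∧ x₀.den ≠ 6 ∧ ∀ x : ℚ, (∀ z : ℤ, 2 * x ≠ z) →
      (∀ z : ℤ, x ≠ x₀ + z ∧ x ≠ -x₀ + z) → AlgebraicIndependent ℚ ![Real.pi, Real.Gamma x] := by
  refine ⟨LWP.lang_pi trAll indAll, ?_⟩
  obtain ⟨x₀, h5, h6, h⟩ := pi_gamma_all trAll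
  exact ⟨x₀, h5, h6, fun x hx hx0 => (h x hx hx0).1⟩

end Pool.Agent.Results.MP_c2409d_nt.LangWithPi
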